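import Pool.Agent.KTK.Stmts

/-!
Row EXL of the squad KTK (problem MP_b2962a_an): exponentially Liouville vectors, the growth condition.
-/

set_option autoImplicit false

namespace Pool.Agent.KTK.H11

open Pool.Agent.PRT
open scoped ContDiff

/-- **Row EXL**. -/
theorem exl : Pool.Agent.KTK.ExlStmt := by
  intro F w c hS hc hw N
  obtain ⟨ε, hε⟩ : ∃ ε : ℝ, ε = c / (4 * (N + 1)) := ⟨_, rfl⟩
  have hN0 : (0 : ℝ) ≤ N := Nat.cast_nonneg N
  have hε0 : 0 < ε := by rw [hε]; positivity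
  obtain ⟨C, hC⟩ := hS ε hε0
  obtain ⟨C', hC'⟩ : ∃ C' : ℝ, C' = max C 1 := ⟨_, rfl⟩
  have hC1 : 1 ≤ C' := by rw [hC']; exact le_max_right _ _
  have hC2 : C ≤ C' := by rw [hC']; exact le_max_left _ _
  obtain ⟨K, hK⟩ : ∃ K : ℝ, K = 1 / ε + C' := ⟨_, rfl⟩
  have hK0 : 0 < K := by rw [hK]; positivity
  obtain ⟨Q, hQ⟩ := exists_nat_ge (K ^ N / (3 / 4 * c))
  obtain ⟨q, a, b, hq, hab⟩ := hw (Q + 1)
  refine ⟨q, a, b, C' * Real.exp (ε * q), by omega, ?_, ?_⟩
  · intro m hm z
    have hm' : (m : ℝ) ≤ q := by exact_mod_cast hm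
    refine (hC m z).trans ?_
    have h1 : Real.exp (ε * m) ≤ Real.exp (ε * q) :=
      Real.exp_le_exp.2 (mul_le_mul_of_nonneg_left hm' hε0.le)
    exact mul_le_mul hC2 h1 (Real.exp_pos _).le (by linarith)
  · have hq0 : (0 : ℝ) ≤ q := Nat.cast_nonneg q
    have h1 : (q : ℝ) ≤ 1 / ε * Real.exp (ε * q) := by
      have h2 : ε * q ≤ Real.exp (ε * q) := by
        have := Real.add_one_le_exp (ε * q)
        linarith
      calc (q : ℝ) = 1 / ε * (ε * q) := by field_simp
        _ ≤ 1 / ε * Real.exp (ε * q) := mul_le_mul_of_nonneg_left h2 (by positivity)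
    have h2 : (q : ℝ) + C' * Real.exp (ε * q) ≤ K * Real.exp (ε * q) := by
      rw [hK, add_mul]
      linarith
    have h3 : ((q : ℝ) + C' * Real.exp (ε * q)) ^ N ≤ K ^ N * Real.exp (c / 4 * q) := by
      have h4 : ((q : ℝ) + C' * Real.exp (ε * q)) ^ N ≤ (K * Real.exp (ε * q)) ^ N :=
        pow_le_pow_left₀ (by positivity) h2 N
      refine h4.trans ?_
      rw [mul_pow, ← Real.exp_nat_mul]
      refine mul_le_mul_of_nonneg_left (Real.exp_le_exp.2 ?_) (by positivity)
      have h5 : (N : ℝ) * ε ≤ c / 4 := by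
        rw [hε]
        have : (N : ℝ) * (c / (4 * (N + 1))) = c / 4 * (N / (N + 1)) := by
          field_simp
        rw [this]
        have h6 : (N : ℝ) / (N + 1) ≤ 1 := by
          rw [div_le_one (by linarith)]
          linarith
        calc c / 4 * ((N : ℝ) / (N + 1)) ≤ c / 4 * 1 := mul_le_mul_of_nonneg_left h6 (by positivity)
          _ = c / 4 := mul_one _
      calc (N : ℝ) * (ε * q) = (N * ε) * q := by ring
        _ ≤ c / 4 * q := mul_le_mul_of_nonneg_right h5 hq0
    have h4 : K ^ N ≤ Real.exp (3 / 4 * c * q) := by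
      have h5 : K ^ N ≤ 3 / 4 * c * Q := by
        have := (div_le_iff₀ (by positivity : (0 : ℝ) < 3 / 4 * c)).1 hQ
        linarith
      have h6 : (Q : ℝ) ≤ q := by exact_mod_cast (by omega : Q ≤ q)
      have h7 : 3 / 4 * c * Q ≤ 3 / 4 * c * q := mul_le_mul_of_nonneg_left h6 (by positivity)
      have h8 := Real.add_one_le_exp (3 / 4 * c * q)
      linarith
    calc ‖(q : ℝ) • w - iv a b‖ * ((q : ℝ) + C' * Real.exp (ε * q)) ^ N
        ≤ Real.exp (-c * q) * (K ^ N * Real.exp (c / 4 * q)) :=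
          mul_le_mul hab h3 (by positivity) (Real.exp_pos _).le
      _ ≤ Real.exp (-c * q) * (Real.exp (3 / 4 * c * q) * Real.exp (c / 4 * q)) :=
          mul_le_mul_of_nonneg_left (mul_le_mul_of_nonneg_right h4 (Real.exp_pos _).le)
            (Real.exp_pos _).le
      _ = 1 := by
          rw [← Real.exp_add, ← Real.exp_add]
          have : -c * q + (3 / 4 * c * q + c / 4 * q) = 0 := by ring
          rw [this, Real.exp_zero]

end Pool.Agent.KTK.H11
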